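import Pool.Agent.Q167.Spread.Main

/-!
# The sharper algebraic-connectivity inequality fails for balanced digraphs

For every `n ≥ 14` there is a balanced digraph `Γ` of order `n` such that `x = α(Γ)` and
`y = α(complement of Γ)` satisfy `x < 1`, `y < 1` and
`x y (2 - x y) < n (1 - x) (1 - y) (n - 2 - x - y)`.
-/

set_option autoImplicit false

namespace Pool.Agent.Results.MP_2c58b6_co.SharperBoundFails

open Pool.Agent.Q167.Spread

/-- The inequality `x y (2 - x y) ≥ n (1 - x) (1 - y) (n - 2 - x - y)` fails for some balanced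
digraph of every order `n ≥ 14`, with `x < 1` and `y < 1`. -/
theorem result (n : ℕ) (hn : 14 ≤ n) : ∃ Γ : Dig n, Γ.Balanced ∧ ∃ x y : ℝ,
    Γ.IsAlgConn x ∧ Γ.compl.IsAlgConn y ∧ x < 1 ∧ y < 1 ∧
    x * y * (2 - x * y) < n * (1 - x) * (1 - y) * (n - 2 - x - y) := by
  obtain ⟨Γ, h1, x, y, h2, h3, -, h4, -, h5, h6⟩ := main n hn
  exact ⟨Γ, h1, x, y, h2, h3, h4, h5, h6⟩

end Pool.Agent.Results.MP_2c58b6_co.SharperBoundFails
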